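import Mathlib
import Pool.Agent.H6.EHMStrong

set_option autoImplicit false

/-!
MP_931ca8_lc: under CH the Erdős–Hajnal–Milner property fails at every ordinal `α` with
`ω₁ ^ (ω + 2) ≤ α % ω₂`, in particular at every limit ordinal in `[ω₁ ^ (ω + 2), ω₂)`.
-/

namespace Pool.Agent.Results.MP_931ca8_lc.CHFails

open Ordinal Cardinal

/-- Assume the continuum hypothesis.  (1) Every ordinal `τ < ω₂` carries a graph with no infinite
path all of whose independent sets have order type less than `ω₁ ^ (ω + 2)`.  (2) For every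
ordinal `α` whose remainder modulo `ω₂` is at least `ω₁ ^ (ω + 2)` there is a graph on `α` with no
infinite path and no independent set of order type `α`. -/
theorem result (CH : Cardinal.continuum.{0} = Cardinal.aleph 1) :
    (∀ τ : Ordinal.{0}, τ < ω_ 2 → ∃ G : SimpleGraph (Set.Iio τ),
      (¬ ∃ v : ℕ → Set.Iio τ, Function.Injective v ∧ ∀ n, G.Adj (v n) (v (n + 1))) ∧
      ∀ S : Set (Set.Iio τ), (∀ x ∈ S, ∀ y ∈ S, ¬ G.Adj x y) →
        Ordinal.type (fun a b : S => a < b) < Ordinal.lift.{1} (ω₁ ^ (ω + 2) : Ordinal.{0})) ∧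
    (∀ α : Ordinal.{0}, ω₁ ^ (ω + 2) ≤ α % ω_ 2 → ∃ G : SimpleGraph (Set.Iio α),
      (¬ ∃ v : ℕ → Set.Iio α, Function.Injective v ∧ ∀ n, G.Adj (v n) (v (n + 1))) ∧
      ∀ S : Set (Set.Iio α), (∀ x ∈ S, ∀ y ∈ S, ¬ G.Adj x y) →
        Ordinal.type (fun a b : S => a < b) ≠ Ordinal.lift.{1} α) :=
  H6.EHM.combined CH

end Pool.Agent.Results.MP_931ca8_lc.CHFails
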